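import Pool.Agent.H947R2.TP.Stubs

open MeasureTheory Filter Topology Set
open scoped ENNReal

namespace H947TP

/-- B2: rational approximations of the identity. -/
theorem B2 : St_B2 := by
  classical
  intro S η hη
  have hli : LinearIndepOn ℚ id ({1} : Set ℝ) := by
    rw [linearIndepOn_singleton_iff]
    exact one_ne_zero
  let b := Module.Basis.extend hli
  have hmem : (1 : ℝ) ∈ hli.extend (Set.subset_univ _) :=
    hli.subset_extend (Set.subset_univ _) (Set.mem_singleton 1)
  have hb1 : b ⟨1, hmem⟩ = 1 := by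
    rw [Module.Basis.extend_apply_self]
  obtain ⟨M, hM⟩ : ∃ M : ℝ, M = ∑ s ∈ S, ∑ i ∈ (b.repr s).support, |((b.repr s i : ℚ) : ℝ)| :=
    ⟨_, rfl⟩
  have hM0 : 0 ≤ M := by
    rw [hM]
    exact Finset.sum_nonneg fun s _ => Finset.sum_nonneg fun i _ => abs_nonneg _
  have hη' : 0 < η / (M + 1) := by positivity
  have hr : ∀ i, ∃ r : ℚ, |(r : ℝ) - b i| < η / (M + 1) := by
    intro i
    obtain ⟨r, h1, h2⟩ := exists_rat_btwn (show b i < b i + η / (M + 1) by linarith)
    refine ⟨r, ?_⟩
    rw [abs_lt]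
    constructor <;> linarith
  choose r0 hr0 using hr
  let r := Function.update r0 ⟨1, hmem⟩ 1
  have hrr : ∀ i, |(r i : ℝ) - b i| ≤ η / (M + 1) := by
    intro i
    by_cases hi : i = ⟨1, hmem⟩
    · subst hi
      simp only [r, Function.update_self, hb1]
      simp
      positivity
    · simp only [r, Function.update_of_ne hi]
      exact (hr0 i).le
  refine ⟨b.constr ℚ r, ?_, ?_⟩
  · have h1 : b.constr ℚ r (b ⟨1, hmem⟩) = r ⟨1, hmem⟩ := b.constr_basis ℚ r _
    rw [hb1] at h1
    rw [h1]
    simp [r]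
  · intro s hs
    have h1 : ((b.constr ℚ r s : ℚ) : ℝ) =
        ∑ i ∈ (b.repr s).support, ((b.repr s i : ℚ) : ℝ) * (r i : ℝ) := by
      rw [Module.Basis.constr_apply, Finsupp.sum]
      push_cast
      exact Finset.sum_congr rfl fun i _ => by rw [smul_eq_mul]; push_cast; rfl
    have h2 : s = ∑ i ∈ (b.repr s).support, ((b.repr s i : ℚ) : ℝ) * b i := by
      conv_lhs => rw [← b.linearCombination_repr s]
      rw [Finsupp.linearCombination_apply, Finsupp.sum]
      exact Finset.sum_congr rfl fun i _ => by rw [Rat.smul_def]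
    have h3 : ((b.constr ℚ r s : ℚ) : ℝ) - s =
        ∑ i ∈ (b.repr s).support, ((b.repr s i : ℚ) : ℝ) * ((r i : ℝ) - b i) := by
      have h4 : ∑ i ∈ (b.repr s).support, ((b.repr s i : ℚ) : ℝ) * ((r i : ℝ) - b i) =
          ∑ i ∈ (b.repr s).support, ((b.repr s i : ℚ) : ℝ) * (r i : ℝ) -
          ∑ i ∈ (b.repr s).support, ((b.repr s i : ℚ) : ℝ) * b i := by
        rw [← Finset.sum_sub_distrib]
        exact Finset.sum_congr rfl fun i _ => by ring
      rw [h4, ← h1, ← h2]
    rw [h3]
    calc |∑ i ∈ (b.repr s).support, ((b.repr s i : ℚ) : ℝ) * ((r i : ℝ) - b i)|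
        ≤ ∑ i ∈ (b.repr s).support, |((b.repr s i : ℚ) : ℝ) * ((r i : ℝ) - b i)| :=
          Finset.abs_sum_le_sum_abs _ _
      _ ≤ ∑ i ∈ (b.repr s).support, |((b.repr s i : ℚ) : ℝ)| * (η / (M + 1)) := by
          apply Finset.sum_le_sum
          intro i _
          rw [abs_mul]
          exact mul_le_mul_of_nonneg_left (hrr i) (abs_nonneg _)
      _ = (∑ i ∈ (b.repr s).support, |((b.repr s i : ℚ) : ℝ)|) * (η / (M + 1)) := by
          rw [Finset.sum_mul]
      _ ≤ M * (η / (M + 1)) := by
          apply mul_le_mul_of_nonneg_right _ hη'.le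
          rw [hM]
          exact Finset.single_le_sum
            (f := fun s => ∑ i ∈ (b.repr s).support, |((b.repr s i : ℚ) : ℝ)|)
            (fun s _ => Finset.sum_nonneg fun i _ => abs_nonneg _) hs
      _ < (M + 1) * (η / (M + 1)) := by
          apply mul_lt_mul_of_pos_right _ hη'
          linarith
      _ = η := by
          have : M + 1 ≠ 0 := by positivity
          field_simp

end H947TP
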