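import Pool.Agent.H947R2.TP.Stubs

open MeasureTheory Filter Topology Set
open scoped ENNReal

namespace H947TP

/-- L3: compactness along the ultrafilter. -/
theorem L3 : St_L3 := by
  classical
  intro D Λ U R v hv
  have hK : IsCompact (Icc (fun _ : Fin D => -R) (fun _ : Fin D => R)) := isCompact_Icc
  have hle : (↑(U.map v) : Filter (Fin D → ℝ)) ≤
      𝓟 (Icc (fun _ : Fin D => -R) (fun _ : Fin D => R)) := by
    rw [le_principal_iff]
    show v ⁻¹' _ ∈ U
    filter_upwards [hv] with m hm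
    show v m ∈ Icc (fun _ : Fin D => -R) (fun _ : Fin D => R)
    rw [mem_Icc]
    exact ⟨fun l => (abs_le.mp (hm.2 l)).1, fun l => (abs_le.mp (hm.2 l)).2⟩
  obtain ⟨x, _, hx⟩ := hK.ultrafilter_le_nhds (U.map v) hle
  have ht : Tendsto v U (𝓝 x) := hx
  refine ⟨x, ?_, ht⟩
  refine ⟨fun m => if v m ∈ Λ m then v m else 0, fun m => ?_, ?_⟩
  · show (if v m ∈ Λ m then v m else 0) ∈ Λ m
    split_ifs with h
    · exact h
    · exact (Λ m).zero_mem
  · refine ht.congr' ?_
    filter_upwards [hv] with m hm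
    rw [if_pos hm.1]

end H947TP
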