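import Pool.Agent.H947R2.TP.Stubs

open MeasureTheory Filter Topology Set
open scoped ENNReal Pointwise

namespace H947TP

theorem V1_eball_smul (d : ℕ) {R : ℝ} (hR : 0 < R) : eball d R = R • eball d 1 := by
  ext x
  rw [Set.mem_smul_set_iff_inv_smul_mem₀ hR.ne']
  unfold eball
  simp only [mem_setOf_eq, Pi.smul_apply, smul_eq_mul, mul_pow, one_pow]
  rw [← Finset.mul_sum, inv_pow, inv_mul_le_iff₀ (by positivity), mul_one]

theorem V1_vol (d : ℕ) {R : ℝ} (hR : 0 < R) :
    volume (eball d R) = ENNReal.ofReal (R ^ d) * volume (eball d 1) := by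
  rw [V1_eball_smul d hR, Measure.addHaar_smul, Module.finrank_fin_fun,
    abs_of_pos (by positivity)]

theorem V1_pos (d : ℕ) : volume (eball d 1) ≠ 0 := by
  have hopen : IsOpen {x : Fin d → ℝ | ∑ i, x i ^ 2 < 1} :=
    isOpen_lt (by fun_prop) continuous_const
  have hne : ({x : Fin d → ℝ | ∑ i, x i ^ 2 < 1}).Nonempty := ⟨0, by simp⟩
  have hpos := hopen.measure_pos (μ := volume) hne
  have hsub : {x : Fin d → ℝ | ∑ i, x i ^ 2 < 1} ⊆ eball d 1 := by
    intro x hx
    show ∑ i, x i ^ 2 ≤ 1 ^ 2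
    rw [one_pow]
    exact le_of_lt hx
  exact (hpos.trans_le (measure_mono hsub)).ne'

theorem V1_fin (d : ℕ) : volume (eball d 1) ≠ ⊤ := by
  have hsub : eball d 1 ⊆ Icc (fun _ : Fin d => (-1 : ℝ)) (fun _ => 1) := by
    intro x hx
    have h : ∀ i, x i ^ 2 ≤ 1 := by
      intro i
      have h1 : x i ^ 2 ≤ ∑ j, x j ^ 2 :=
        Finset.single_le_sum (f := fun j => x j ^ 2) (fun j _ => sq_nonneg _) (Finset.mem_univ i)
      have h2 : ∑ j, x j ^ 2 ≤ 1 ^ 2 := hx
      rw [one_pow] at h2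
      exact h1.trans h2
    rw [mem_Icc]
    exact ⟨fun i => (abs_le.mp ((sq_le_one_iff_abs_le_one _).mp (h i))).1,
      fun i => (abs_le.mp ((sq_le_one_iff_abs_le_one _).mp (h i))).2⟩
  exact ((measure_mono hsub).trans_lt isCompact_Icc.measure_lt_top).ne

/-- V1: volumes of balls. -/
theorem V1 : St_V1 := by
  intro d c hd hc
  constructor
  · intro R hR
    rw [V1_vol d hR]
    refine ⟨mul_ne_zero ?_ (V1_pos d), ENNReal.mul_ne_top ENNReal.ofReal_ne_top (V1_fin d)⟩
    rw [ne_eq, ENNReal.ofReal_eq_zero, not_le]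
    positivity
  · have h1 : ∀ᶠ R : ℝ in atTop, ENNReal.ofReal (((R + c) / R) ^ d) =
        volume (eball d (R + c)) / volume (eball d R) := by
      filter_upwards [eventually_gt_atTop 0] with R hR
      have hRc : 0 < R + c := by linarith
      rw [V1_vol d hR, V1_vol d hRc, ENNReal.mul_div_mul_right _ _ (V1_pos d) (V1_fin d),
        div_pow, ENNReal.ofReal_div_of_pos (by positivity)]
    refine Tendsto.congr' h1 ?_
    have h2 : Tendsto (fun R : ℝ => ((R + c) / R) ^ d) atTop (𝓝 ((1 + 0) ^ d)) := by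
      have h3 : Tendsto (fun R : ℝ => 1 + c / R) atTop (𝓝 (1 + 0)) :=
        tendsto_const_nhds.add (tendsto_const_nhds.div_atTop tendsto_id)
      refine (h3.congr' ?_).pow d
      filter_upwards [eventually_gt_atTop 0] with R hR
      field_simp
    have h4 := ENNReal.tendsto_ofReal h2
    simpa using h4

end H947TP
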